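import Pool.Agent.H83.Maz3

namespace Pool.Agent.Results.MP_5076ba_lc.Counter

open FirstOrder FirstOrder.Language Set

/-- model-theoretic algebraic closure: the union of the finite sets definable over `A` -/
def acl (L : FirstOrder.Language.{0, 0}) {N : Type} [L.Structure N] (A : Set N) : Set N :=
  {c | ∃ D : Set N, A.Definable₁ L D ∧ D.Finite ∧ c ∈ D}

/-- over a countable subset of any model only countably many complete 1-types are realised -/
def OmegaStable {L : FirstOrder.Language.{0, 0}} (T : L.Theory) : Prop :=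
  ∀ (N : Theory.ModelType.{0, 0, 0} T) (A : Set N), A.Countable →
    ((L[[A]].completeTheory N).realizedTypes N (Fin 1)).Countable

/-- the solution set of a formula in one free variable -/
def sol {L : FirstOrder.Language.{0, 0}} (φ : L.Formula (Fin 1)) (N : Type) [L.Structure N] :
    Set N := {x | φ.Realize fun _ => x}

/-- Morley rank 1 and degree 1: every formula of `p` has infinitely many solutions in every
model, and some formula of `p` is strongly minimal. -/
def StronglyMinimalType {L : FirstOrder.Language.{0, 0}} (T : L.Theory)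
    (p : T.CompleteType (Fin 1)) : Prop :=
  (∀ φ : L.Formula (Fin 1), Formula.equivSentence φ ∈ p →
    ∀ N : Theory.ModelType.{0, 0, 0} T, (sol φ N).Infinite) ∧
  ∃ φ : L.Formula (Fin 1), Formula.equivSentence φ ∈ p ∧
    ∀ (N : Theory.ModelType.{0, 0, 0} T) (D : Set N), (univ : Set N).Definable₁ L D →
      (sol φ N ∩ D).Finite ∨ (sol φ N \ D).Finite

open Pool.Agent.H83.Maz in
theorem result : ∃ (L : FirstOrder.Language.{0, 0}) (T : L.Theory) (p : T.CompleteType (Fin 1)),
    L.card ≤ Cardinal.aleph0 ∧ T.IsComplete ∧ Cardinal.Categorical Cardinal.aleph0.{0} T ∧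
    OmegaStable T ∧ StronglyMinimalType T p ∧
    ∀ (N : Theory.ModelType.{0, 0, 0} T) (n : ℕ), ∃ (c b : N) (A : Set N),
      T.typeOf (fun _ : Fin 1 => c) = p ∧ acl L A = A ∧ c ∈ acl L (insert b A) ∧
      ∀ A' ⊆ A, A'.encard ≤ n → c ∉ acl L (insert b A') := by
  obtain ⟨a0, ha0⟩ := R0.P_infinite.nonempty
  have tr : ∀ (N : Theory.ModelType.{0, 0, 0} T) (c : N), P c → ∀ φ : L.Formula (Fin 1),
      (φ.Realize (fun _ => a0) ↔ φ.Realize (fun _ => c)) := fun N c hc φ => by
    obtain ⟨G, h⟩ := good_P R0 (RN N) ((R0.P_iff _).1 ha0) (((RN N).P_iff _).1 hc)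
    exact h.formula φ _ _ fun _ => rfl
  refine ⟨L, T, T.typeOf fun _ => a0, L_card, completeTheory.isComplete L M0, ?_, ?_,
    ⟨fun φ hφ N => ?_, fP 0, ?_, fun N D hD => ?_⟩, fun N n => ?_⟩
  · intro M N hM hN
    have : Countable M := Cardinal.mk_le_aleph0_iff.1 hM.le
    have : Countable N := Cardinal.mk_le_aleph0_iff.1 hN.le
    exact iso (RN M) (RN N)
  · intro N A hA
    have := stable (RN N) hA (fun c => (L[[A]].completeTheory N).typeOf fun _ : Fin 1 => c)
      fun c c' h => by
        refine SetLike.ext fun ψ => ?_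
        rw [Theory.CompleteType.mem_typeOf, Theory.CompleteType.mem_typeOf]
        refine h {x | (Formula.equivSentence.symm ψ).Realize fun _ : Fin 1 => x}
          ⟨Formula.equivSentence.symm ψ, Set.ext fun v => ?_⟩
        show Formula.Realize _ (fun _ => v 0) ↔ Formula.Realize _ v
        rw [show (fun _ => v 0) = v from funext fun i => by fin_cases i; rfl]
    refine this.mono ?_
    rintro _ ⟨v, rfl⟩
    exact ⟨v 0, congrArg _ (funext fun i => by fin_cases i; rfl)⟩
  · rw [Theory.CompleteType.formula_mem_typeOf] at hφ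
    exact (RN N).P_infinite.mono fun c hc => (tr N c hc φ).1 hφ
  · rw [Theory.CompleteType.formula_mem_typeOf, realize_fP]; exact ha0
  · have e : sol (fP 0) N = {x | P x} := Set.ext fun x => realize_fP _ _
    rw [e]; exact minimal (RN N) hD
  · obtain ⟨c, b, A, hc, -, h1, h2, h3⟩ := counter (RN N) n
    refine ⟨c, b, A, ?_, ?_, h2, fun A' hA' hn ⟨D, hD, hf, hcD⟩ => h3 A' hA' hn D hD hf hcD⟩
    · refine SetLike.ext fun ψ => ?_
      rw [Theory.CompleteType.mem_typeOf, Theory.CompleteType.mem_typeOf]
      exact (tr N c hc _).symm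
    · refine Subset.antisymm (fun x ⟨D, hD, hf, hx⟩ => h1 D hD hf hx) fun a ha => ?_
      exact ⟨{a}, Definable.singleton_of_mem L ha, finite_singleton a, rfl⟩

end Pool.Agent.Results.MP_5076ba_lc.Counter
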